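import Pool.Agent.H14.WS.Sym
import Pool.Agent.H12.WormLMeas

/-!
# Area of a cover and its asymmetry
-/

set_option autoImplicit false

namespace Pool.Agent.H14.WS

open MeasureTheory Set Metric
open Pool.Agent.H12.Worm
open scoped Pointwise

theorem Lf_norm (z : Plane) : ∃ φ : ℝ, Lf φ z = ‖z‖ := by
  obtain ⟨w, hw0, hw1⟩ : ∃ w : ℂ, w.re = z 0 ∧ w.im = z 1 := ⟨⟨z 0, z 1⟩, rfl, rfl⟩
  have hw : ‖w‖ = ‖z‖ := by
    rw [EuclideanSpace.norm_eq, Complex.norm_eq_sqrt_sq_add_sq, hw0, hw1]
    simp [Fin.sum_univ_two]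
  refine ⟨w.arg, ?_⟩
  have h1 : ‖w‖ * Real.cos w.arg = z 0 := by rw [Complex.norm_mul_cos_arg, hw0]
  have h2 : ‖w‖ * Real.sin w.arg = z 1 := by rw [Complex.norm_mul_sin_arg, hw1]
  unfold Lf
  rw [← h1, ← h2, ← hw]
  linear_combination ‖w‖ * Real.sin_sq_add_cos_sq w.arg

theorem Lf_cont (θ : ℝ) : Continuous (Lf θ) := by
  unfold Lf
  fun_prop

/-- adding a segment increases the area by at least its length times the width `1 / 2` -/
theorem seg_step {K : Set Plane} (hcomp : IsCompact K) (hconv : Convex ℝ K) (θ : ℝ) {v : Plane}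
    (hv : v ∈ K) (hy : (1 / 2 : ℝ) • ev (θ + Real.pi / 2) + v ∈ K) {a : ℝ} (ha : 0 < a) :
    volume K + ENNReal.ofReal a ≤ volume (K + segment ℝ (-(a • ev θ)) (a • ev θ)) := by
  set u : Plane := ev θ with hu
  set y : Plane := (1 / 2 : ℝ) • ev (θ + Real.pi / 2) + v with hydef
  set K' : Set Plane := K + segment ℝ (-(a • u)) (a • u) with hK'
  have hconv' : Convex ℝ K' := hconv.add (convex_segment _ _)
  have hp : ∀ x ∈ K, x + a • u ∈ K' := fun x hx => add_mem_add hx (right_mem_segment _ _ _)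
  have hm : ∀ x ∈ K, x + -(a • u) ∈ K' := fun x hx => add_mem_add hx (left_mem_segment _ _ _)
  have Lu : Lf θ u = 1 := by rw [hu, Lf_ev, sub_self, Real.cos_zero]
  have Ly : Lf θ y = Lf θ v := by
    rw [hydef, Lf_add, Lf_smul, Lf_ev, show θ + Real.pi / 2 - θ = Real.pi / 2 by ring,
      Real.cos_pi_div_two]
    ring
  have Ln : ∀ x : Plane, Lf θ (x + -(a • u)) = Lf θ x - a := by
    intro x
    rw [← sub_eq_add_neg, Lf_sub, Lf_smul, Lu, mul_one]
  have Lp : ∀ x : Plane, Lf θ (x + a • u) = Lf θ x + a := by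
    intro x
    rw [Lf_add, Lf_smul, Lu, mul_one]
  -- the four sets
  set Kp : Set Plane := K ∩ {z | Lf θ v < Lf θ z} with hKp
  set Km : Set Plane := K ∩ {z | Lf θ z ≤ Lf θ v} with hKm
  have mKp : MeasurableSet Kp := hcomp.isClosed.measurableSet.inter
    (isOpen_lt continuous_const (Lf_cont θ)).measurableSet
  have mKm : MeasurableSet Km := hcomp.isClosed.measurableSet.inter
    (isClosed_le (Lf_cont θ) continuous_const).measurableSet
  have hKsum : volume K ≤ volume Kp + volume Km := by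
    refine le_trans (measure_mono ?_) (measure_union_le Kp Km)
    intro z hz
    rcases lt_or_ge (Lf θ v) (Lf θ z) with h | h
    · exact Or.inl ⟨hz, h⟩
    · exact Or.inr ⟨hz, h⟩
  set Tp : Set Plane := (fun z => z + -(a • u)) ⁻¹' Kp with hTp
  set Tm : Set Plane := (fun z => z + a • u) ⁻¹' Km with hTm
  have vTp : volume Tp = volume Kp := measure_preimage_add_right volume _ _
  have vTm : volume Tm = volume Km := measure_preimage_add_right volume _ _
  have mTp : MeasurableSet Tp := mKp.preimage (by fun_prop)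
  have mTm : MeasurableSet Tm := mKm.preimage (by fun_prop)
  set T1 : Set Plane := tri (v + -(a • u)) (v + a • u) (y + a • u) with hT1
  set T2 : Set Plane := tri (v + -(a • u)) (y + a • u) (y + -(a • u)) with hT2
  have mT1 : MeasurableSet T1 := (tri_open _ _ _).measurableSet
  have mT2 : MeasurableSet T2 := (tri_open _ _ _).measurableSet
  have sT1 : T1 ⊆ K' := tri_subset hconv' (hm _ hv) (hp _ hv) (hp _ hy)
  have sT2 : T2 ⊆ K' := tri_subset hconv' (hm _ hv) (hp _ hy) (hm _ hy)
  have sTp : Tp ⊆ K' := by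
    intro z hz
    have := hp _ hz.1
    simpa using this
  have sTm : Tm ⊆ K' := by
    intro z hz
    have := hm _ hz.1
    simpa using this
  have LT1 : ∀ z ∈ T1, Lf θ v - a < Lf θ z ∧ Lf θ z < Lf θ v + a := by
    intro z hz
    obtain ⟨α, β, γ, h1, h2, h3, hs, rfl⟩ := tri_bary hz
    rw [Lf_add, Lf_add, Lf_smul, Lf_smul, Lf_smul, Ln, Lp, Lp, Ly]
    have e : α * (Lf θ v - a) + β * (Lf θ v + a) + γ * (Lf θ v + a) =
        (α + β + γ) * Lf θ v + (β + γ - α) * a := by ring
    rw [e, hs, one_mul]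
    constructor
    · nlinarith
    · nlinarith
  have LT2 : ∀ z ∈ T2, Lf θ v - a < Lf θ z ∧ Lf θ z < Lf θ v + a := by
    intro z hz
    obtain ⟨α, β, γ, h1, h2, h3, hs, rfl⟩ := tri_bary hz
    rw [Lf_add, Lf_add, Lf_smul, Lf_smul, Lf_smul, Ln, Lp, Ln, Ly]
    have e : α * (Lf θ v - a) + β * (Lf θ v + a) + γ * (Lf θ v - a) =
        (α + β + γ) * Lf θ v + (β - γ - α) * a := by ring
    rw [e, hs, one_mul]
    constructor
    · nlinarith
    · nlinarith
  have LTp : ∀ z ∈ Tp, Lf θ v + a < Lf θ z := by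
    intro z hz
    have := hz.2
    rw [mem_ofPred_eq] at this
    simp only [Ln] at this
    linarith
  have LTm : ∀ z ∈ Tm, Lf θ z ≤ Lf θ v - a := by
    intro z hz
    have := hz.2
    rw [mem_ofPred_eq] at this
    simp only [Lp] at this
    linarith
  have d12 : Disjoint T1 T2 := by
    rw [Set.disjoint_left]
    rintro z ⟨_, _, h3⟩ ⟨h1, _, _⟩
    have : cr (v + -(a • u) - (y + a • u)) (z - (y + a • u)) =
        -cr (y + a • u - (v + -(a • u))) (z - (v + -(a • u))) := by
      unfold cr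
      simp only [PiLp.sub_apply]
      ring
    linarith
  have c90 : Real.cos (θ + Real.pi / 2) = -Real.sin θ := Real.cos_add_pi_div_two θ
  have s90 : Real.sin (θ + Real.pi / 2) = Real.cos θ := Real.sin_add_pi_div_two θ
  have vT1 : ENNReal.ofReal (a / 2) ≤ volume T1 := by
    refine le_trans (le_of_eq ?_) (tri_volume _ _ _)
    congr 1
    rw [hydef, hu]
    unfold cr
    simp only [PiLp.sub_apply, PiLp.add_apply, PiLp.smul_apply, PiLp.neg_apply, smul_eq_mul,
      ev_zero, ev_one, c90, s90]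
    linear_combination -(a / 2) * Real.sin_sq_add_cos_sq θ
  have vT2 : ENNReal.ofReal (a / 2) ≤ volume T2 := by
    refine le_trans (le_of_eq ?_) (tri_volume _ _ _)
    congr 1
    rw [hydef, hu]
    unfold cr
    simp only [PiLp.sub_apply, PiLp.add_apply, PiLp.smul_apply, PiLp.neg_apply, smul_eq_mul,
      ev_zero, ev_one, c90, s90]
    linear_combination -(a / 2) * Real.sin_sq_add_cos_sq θ
  -- the union
  have d3 : Disjoint (T1 ∪ T2) Tp := by
    rw [Set.disjoint_left]
    rintro z (h | h) h'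
    · linarith [(LT1 z h).2, LTp z h']
    · linarith [(LT2 z h).2, LTp z h']
  have d4 : Disjoint (T1 ∪ T2 ∪ Tp) Tm := by
    rw [Set.disjoint_left]
    rintro z ((h | h) | h) h'
    · linarith [(LT1 z h).1, LTm z h']
    · linarith [(LT2 z h).1, LTm z h']
    · linarith [LTp z h, LTm z h']
  have hunion : volume (T1 ∪ T2 ∪ Tp ∪ Tm) = volume T1 + volume T2 + volume Tp + volume Tm := by
    rw [measure_union d4 mTm, measure_union d3 mTp, measure_union d12 mT2]
  have hfin : volume T1 + volume T2 + volume Tp + volume Tm ≤ volume K' := by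
    rw [← hunion]
    exact measure_mono (union_subset (union_subset (union_subset sT1 sT2) sTp) sTm)
  calc volume K + ENNReal.ofReal a
      ≤ (volume Kp + volume Km) + (ENNReal.ofReal (a / 2) + ENNReal.ofReal (a / 2)) := by
        rw [← ENNReal.ofReal_add (by positivity) (by positivity), add_halves]
        gcongr
    _ ≤ (volume Tp + volume Tm) + (volume T1 + volume T2) := by
        rw [vTp, vTm]
        gcongr
    _ = volume T1 + volume T2 + volume Tp + volume Tm := by ring
    _ ≤ volume K' := hfin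

theorem isCompact_seg (x y : Plane) : IsCompact (segment ℝ x y) := by
  rw [← convexHull_pair (𝕜 := ℝ) x y]
  exact Set.Finite.isCompact_convexHull ℝ (Set.toFinite {x, y})

/-- `K` plus `j` segments -/
noncomputable def SK (K : Set Plane) (a : ℝ) (N : ℕ) : ℕ → Set Plane
  | 0 => K
  | j + 1 => SK K a N j +
      segment ℝ (-(a • ev ((j : ℝ) * Real.pi / N))) (a • ev ((j : ℝ) * Real.pi / N))

theorem SK_props {K : Set Plane} (hcomp : IsCompact K) (hconv : Convex ℝ K)
    (hK : IsTranslationCover K) {a : ℝ} (ha : 0 < a) (N : ℕ) (j : ℕ) :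
    IsCompact (SK K a N j) ∧ Convex ℝ (SK K a N j) ∧ K ⊆ SK K a N j ∧
      volume K + j * ENNReal.ofReal a ≤ volume (SK K a N j) ∧
      ∀ y ∈ SK K a N j, ∃ x ∈ K, ∃ z : Plane, y = x + z ∧ ∀ φ : ℝ,
        Lf φ z ≤ a * ∑ i ∈ Finset.range j, |Real.cos ((i : ℝ) * Real.pi / N - φ)| := by
  induction j with
  | zero =>
    refine ⟨hcomp, hconv, Subset.rfl, by simp [SK], ?_⟩
    intro y hy
    refine ⟨y, hy, 0, by simp, fun φ => ?_⟩
    simp [Lf]
  | succ j ih =>
    obtain ⟨h1, h2, h3, h4, h5⟩ := ih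
    refine ⟨h1.add (isCompact_seg _ _), h2.add (convex_segment _ _), ?_, ?_, ?_⟩
    · intro x hx
      refine ⟨x, h3 hx, 0, ?_, by simp⟩
      have := midpoint_mem_segment (𝕜 := ℝ) (-(a • ev ((j : ℝ) * Real.pi / N)))
        (a • ev ((j : ℝ) * Real.pi / N))
      rwa [show midpoint ℝ (-(a • ev ((j : ℝ) * Real.pi / N))) (a • ev ((j : ℝ) * Real.pi / N)) = 0
        by rw [midpoint_eq_smul_add]; simp] at this
    · obtain ⟨v, hv, hv'⟩ := chord hK (norm_ev ((j : ℝ) * Real.pi / N + Real.pi / 2))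
      have := seg_step h1 h2 ((j : ℝ) * Real.pi / N) (h3 hv) (h3 hv') ha
      refine le_trans ?_ this
      push_cast
      rw [add_mul, one_mul, ← add_assoc]
      gcongr
    · rintro y ⟨y1, hy1, w, hw, rfl⟩
      obtain ⟨x, hx, z, rfl, hz⟩ := h5 y1 hy1
      refine ⟨x, hx, z + w, by simp only [add_assoc], fun φ => ?_⟩
      rw [Lf_add, Finset.sum_range_succ, mul_add]
      refine add_le_add (hz φ) ?_
      obtain ⟨α, β, hα, hβ, hab, rfl⟩ := hw
      rw [← smul_neg, Lf_add, Lf_smul, Lf_smul, Lf_smul, Lf_smul]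
      have e : Lf φ (-ev ((j : ℝ) * Real.pi / N)) = -Real.cos ((j : ℝ) * Real.pi / N - φ) := by
        rw [← Lf_ev]
        simp only [Lf, PiLp.neg_apply]
        ring
      rw [e, Lf_ev]
      have h6 := neg_abs_le (Real.cos ((j : ℝ) * Real.pi / N - φ))
      have h7 := le_abs_self (Real.cos ((j : ℝ) * Real.pi / N - φ))
      have h8 : α * (a * -Real.cos ((j : ℝ) * Real.pi / N - φ)) ≤
          α * (a * |Real.cos ((j : ℝ) * Real.pi / N - φ)|) := by
        apply mul_le_mul_of_nonneg_left _ hα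
        apply mul_le_mul_of_nonneg_left _ ha.le
        linarith
      have h9 : β * (a * Real.cos ((j : ℝ) * Real.pi / N - φ)) ≤
          β * (a * |Real.cos ((j : ℝ) * Real.pi / N - φ)|) := by
        apply mul_le_mul_of_nonneg_left _ hβ
        apply mul_le_mul_of_nonneg_left _ ha.le
        linarith
      calc _ ≤ α * (a * |Real.cos ((j : ℝ) * Real.pi / N - φ)|) +
            β * (a * |Real.cos ((j : ℝ) * Real.pi / N - φ)|) := add_le_add h8 h9
        _ = a * |Real.cos ((j : ℝ) * Real.pi / N - φ)| := by rw [← add_mul, hab, one_mul]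

theorem int_abs_cos (φ : ℝ) : ∫ x in (0 : ℝ)..Real.pi, |Real.cos (x - φ)| = 2 := by
  have hper : Function.Periodic (fun x : ℝ => |Real.cos x|) Real.pi := by
    intro x
    simp only [Real.cos_add_pi, abs_neg]
  rw [intervalIntegral.integral_comp_sub_right (fun x => |Real.cos x|)]
  have h1 := hper.intervalIntegral_add_eq (0 - φ) (-(Real.pi / 2))
  rw [show 0 - φ + Real.pi = Real.pi - φ by ring,
    show -(Real.pi / 2) + Real.pi = Real.pi / 2 by ring] at h1
  rw [h1]
  have h2 : ∫ x in (-(Real.pi / 2))..(Real.pi / 2), |Real.cos x| =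
      ∫ x in (-(Real.pi / 2))..(Real.pi / 2), Real.cos x := by
    apply intervalIntegral.integral_congr
    intro x hx
    rw [uIcc_of_le (by linarith [Real.pi_pos])] at hx
    exact abs_of_nonneg (Real.cos_nonneg_of_mem_Icc hx)
  rw [h2, integral_cos, Real.sin_neg, Real.sin_pi_div_two]
  norm_num

theorem cos_sum {N : ℕ} (hN : 0 < N) (φ : ℝ) :
    ∑ i ∈ Finset.range N, |Real.cos ((i : ℝ) * Real.pi / N - φ)| ≤
      2 * N / Real.pi + Real.pi := by
  have hN' : (0 : ℝ) < N := by exact_mod_cast hN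
  have hpi := Real.pi_pos
  have hcell : ∀ i : ℕ, Real.pi / N * |Real.cos ((i : ℝ) * Real.pi / N - φ)| ≤
      (∫ x in ((i : ℝ) * Real.pi / N)..(((i + 1 : ℕ) : ℝ) * Real.pi / N), |Real.cos (x - φ)|) +
        (Real.pi / N) ^ 2 := by
    intro i
    have hlen : ((i + 1 : ℕ) : ℝ) * Real.pi / N - (i : ℝ) * Real.pi / N = Real.pi / N := by
      push_cast; ring
    have hle : (i : ℝ) * Real.pi / N ≤ ((i + 1 : ℕ) : ℝ) * Real.pi / N := by
      have : 0 < Real.pi / N := by positivity
      linarith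
    have hint : ∫ x in ((i : ℝ) * Real.pi / N)..(((i + 1 : ℕ) : ℝ) * Real.pi / N),
        |Real.cos ((i : ℝ) * Real.pi / N - φ)| ≤
        ∫ x in ((i : ℝ) * Real.pi / N)..(((i + 1 : ℕ) : ℝ) * Real.pi / N),
          (|Real.cos (x - φ)| + Real.pi / N) := by
      apply intervalIntegral.integral_mono_on hle
      · exact intervalIntegrable_const
      · exact Continuous.intervalIntegrable (by fun_prop) _ _
      · intro x hx
        have h1 := Real.abs_cos_sub_cos_le ((i : ℝ) * Real.pi / N - φ) (x - φ)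
        have h2 : |(i : ℝ) * Real.pi / N - φ - (x - φ)| ≤ Real.pi / N := by
          rw [abs_le]
          constructor
          · linarith [hx.2]
          · have : 0 < Real.pi / N := by positivity
            linarith [hx.1]
        have h3 := abs_sub_abs_le_abs_sub (Real.cos ((i : ℝ) * Real.pi / N - φ))
          (Real.cos (x - φ))
        linarith
    rw [intervalIntegral.integral_const, hlen, intervalIntegral.integral_add
      (Continuous.intervalIntegrable (by fun_prop) _ _) intervalIntegrable_const,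
      intervalIntegral.integral_const, hlen, smul_eq_mul, smul_eq_mul] at hint
    linarith [sq (Real.pi / N)]
  have hsum : ∑ i ∈ Finset.range N, ∫ x in ((i : ℝ) * Real.pi / N)..(((i + 1 : ℕ) : ℝ) * Real.pi / N),
      |Real.cos (x - φ)| = 2 := by
    have := intervalIntegral.sum_integral_adjacent_intervals (μ := volume)
      (f := fun x => |Real.cos (x - φ)|) (a := fun i : ℕ => (i : ℝ) * Real.pi / N) (n := N)
      (fun k _ => Continuous.intervalIntegrable (by fun_prop) _ _)
    rw [this]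
    simp only [Nat.cast_zero, zero_mul, zero_div]
    rw [mul_div_cancel_left₀ _ hN'.ne']
    exact int_abs_cos φ
  have htot : Real.pi / N * ∑ i ∈ Finset.range N, |Real.cos ((i : ℝ) * Real.pi / N - φ)| ≤
      2 + N * (Real.pi / N) ^ 2 := by
    rw [Finset.mul_sum]
    refine (Finset.sum_le_sum fun i _ => hcell i).trans ?_
    rw [Finset.sum_add_distrib, hsum, Finset.sum_const, Finset.card_range, nsmul_eq_mul]
  have e : 2 * N / Real.pi + Real.pi = (2 + N * (Real.pi / N) ^ 2) / (Real.pi / N) := by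
    field_simp
  rw [e, le_div_iff₀ (by positivity)]
  linarith

theorem step_N {K : Set Plane} (hcomp : IsCompact K) (hconv : Convex ℝ K)
    (hK : IsTranslationCover K) {c : Plane} {r : ℝ} (hr : 0 < r) (hball : closedBall c r ⊆ K)
    {N : ℕ} (hN : 0 < N) :
    1 ≤ (2 * ((2 / Real.pi + Real.pi / N) / r) +
      ((2 / Real.pi + Real.pi / N) / r) ^ 2 / N) * (volume K).toReal := by
  have hN' : (0 : ℝ) < N := by exact_mod_cast hN
  have hpi := Real.pi_pos
  set a : ℝ := 1 / (N : ℝ) ^ 2 with ha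
  have ha0 : 0 < a := by rw [ha]; positivity
  set ρ : ℝ := 2 * N / Real.pi + Real.pi with hρ
  have hρ0 : 0 < ρ := by rw [hρ]; positivity
  set lam : ℝ := a * ρ / r with hlam
  have hlam0 : 0 < lam := by rw [hlam]; positivity
  obtain ⟨_, _, _, h4, h5⟩ := SK_props hcomp hconv hK ha0 N N
  have hsub : SK K a N N ⊆ AffineMap.homothety c (1 + lam) '' K := by
    intro y hy
    obtain ⟨x, hx, z, rfl, hz⟩ := h5 y hy
    have hzn : ‖z‖ ≤ a * ρ := by
      obtain ⟨φ, hφ⟩ := Lf_norm z
      rw [← hφ]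
      exact (hz φ).trans (mul_le_mul_of_nonneg_left (cos_sum hN φ) ha0.le)
    have hzb : c + lam⁻¹ • z ∈ K := by
      apply hball
      rw [mem_closedBall, dist_eq_norm, add_sub_cancel_left, norm_smul,
        Real.norm_of_nonneg (by positivity)]
      calc lam⁻¹ * ‖z‖ ≤ lam⁻¹ * (a * ρ) := mul_le_mul_of_nonneg_left hzn (by positivity)
        _ = r := by rw [hlam]; field_simp
    have hk := hconv hx hzb (show 0 ≤ 1 / (1 + lam) by positivity)
      (show 0 ≤ lam / (1 + lam) by positivity) (by field_simp)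
    refine ⟨_, hk, ?_⟩
    rw [AffineMap.homothety_apply, vsub_eq_sub, vadd_eq_add]
    ext i
    simp only [PiLp.add_apply, PiLp.sub_apply, PiLp.smul_apply, smul_eq_mul]
    field_simp
    ring
  have hvol : volume (SK K a N N) ≤ ENNReal.ofReal ((1 + lam) ^ 2) * volume K := by
    refine (measure_mono hsub).trans (le_of_eq ?_)
    rw [Measure.addHaar_image_homothety]
    congr 2
    have hfin : Module.finrank ℝ Plane = 2 := by simp
    rw [hfin, abs_of_nonneg (by positivity)]
  have hfinK : volume K ≠ ⊤ := hcomp.measure_lt_top.ne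
  have h6 := h4.trans hvol
  have h7 : (volume K).toReal + N * a ≤ (1 + lam) ^ 2 * (volume K).toReal := by
    have h8 := ENNReal.toReal_mono (ENNReal.mul_ne_top ENNReal.ofReal_ne_top hfinK) h6
    rw [ENNReal.toReal_add hfinK (ENNReal.mul_ne_top (ENNReal.natCast_ne_top N)
      ENNReal.ofReal_ne_top), ENNReal.toReal_mul, ENNReal.toReal_mul, ENNReal.toReal_natCast,
      ENNReal.toReal_ofReal ha0.le, ENNReal.toReal_ofReal (by positivity)] at h8
    exact h8
  set V : ℝ := (volume K).toReal with hV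
  have e1 : (N : ℝ) * a = 1 / N := by
    rw [ha]; field_simp
  have e2 : lam = ((2 / Real.pi + Real.pi / N) / r) / N := by
    rw [hlam, ha, hρ]; field_simp
  set L : ℝ := (2 / Real.pi + Real.pi / N) / r with hL
  rw [e1, e2] at h7
  have h9 : 1 / (N : ℝ) ≤ (2 * (L / N) + (L / N) ^ 2) * V := by nlinarith
  calc (1 : ℝ) = N * (1 / N) := by field_simp
    _ ≤ N * ((2 * (L / N) + (L / N) ^ 2) * V) := mul_le_mul_of_nonneg_left h9 hN'.le
    _ = (2 * L + L ^ 2 / N) * V := by field_simp

/-- a cover that contains a disc of radius `r` has area at least `π r / 4` -/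
theorem area_ball {K : Set Plane} (hcomp : IsCompact K) (hconv : Convex ℝ K)
    (hK : IsTranslationCover K) {c : Plane} {r : ℝ} (hr0 : 0 < r) (hball : closedBall c r ⊆ K) :
    ENNReal.ofReal (Real.pi * r / 4) ≤ volume K := by
  have hpi := Real.pi_pos
  have hfinK : volume K ≠ ⊤ := hcomp.measure_lt_top.ne
  have hlim : Filter.Tendsto (fun N : ℕ => (2 * ((2 / Real.pi + Real.pi / (N : ℝ)) / r) +
      ((2 / Real.pi + Real.pi / (N : ℝ)) / r) ^ 2 / (N : ℝ)) * (volume K).toReal) Filter.atTop
      (nhds ((2 * ((2 / Real.pi + 0) / r) + ((2 / Real.pi + 0) / r) ^ 2 * 0) *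
        (volume K).toReal)) := by
    have t1 : Filter.Tendsto (fun N : ℕ => Real.pi / (N : ℝ)) Filter.atTop (nhds 0) :=
      tendsto_const_div_atTop_nhds_zero_nat _
    have t2 : Filter.Tendsto (fun N : ℕ => (2 / Real.pi + Real.pi / (N : ℝ)) / r) Filter.atTop
        (nhds ((2 / Real.pi + 0) / r)) := (tendsto_const_nhds.add t1).div_const r
    have t3 : Filter.Tendsto (fun N : ℕ => ((N : ℝ))⁻¹) Filter.atTop (nhds 0) :=
      tendsto_inv_atTop_nhds_zero_nat
    have t4 := (t2.pow 2).mul t3
    have t5 := ((t2.const_mul 2).add t4).mul_const (volume K).toReal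
    simpa only [div_eq_mul_inv] using t5
  have h1 := ge_of_tendsto hlim (b := 1) (by
    filter_upwards [Filter.eventually_gt_atTop 0] with N hN
    exact step_N hcomp hconv hK hr0 hball hN)
  have h2 : Real.pi * r / 4 ≤ (volume K).toReal := by
    have e : (2 * ((2 / Real.pi + 0) / r) + ((2 / Real.pi + 0) / r) ^ 2 * 0) *
        (volume K).toReal = (volume K).toReal / (Real.pi * r / 4) := by
      field_simp
      ring
    rw [e, one_le_div (by positivity)] at h1
    exact h1
  exact (ENNReal.ofReal_le_iff_le_toReal hfinK).mpr h2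

/-- a cover with `-(K - c) ⊆ s (K - c)` has area at least `π / (8 (1 + s))` -/
theorem area_asym {K : Set Plane} (hcomp : IsCompact K) (hconv : Convex ℝ K)
    (hK : IsTranslationCover K) {c : Plane} {s : ℝ} (hs : 0 < s)
    (h : ∀ x ∈ K, c - s⁻¹ • (x - c) ∈ K) :
    ENNReal.ofReal (Real.pi / (8 * (1 + s))) ≤ volume K := by
  have h1 := area_ball hcomp hconv hK (c := c) (r := 1 / (2 * (1 + s))) (by positivity)
    (ball_subset hconv hK hs h)
  convert h1 using 2
  field_simp
  ring

end Pool.Agent.H14.WS
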