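import Pool.Agent.H12.WormLTri

/-!
# The model hexagon
-/

set_option autoImplicit false

namespace Pool.Agent.H14.WS

open Pool.Agent.H12.Worm

/-- the model hexagon: with `s = p - Lf θ x`, `r = q - Lf (θ + 2π/3) x`, `t = a - s - r`:
all of `s, r, t` are in `[0, 1/2]` -/
def Hx (θ p q a : ℝ) : Set Plane :=
  {x | (0 ≤ p - Lf θ x ∧ p - Lf θ x ≤ 1 / 2) ∧
    (0 ≤ q - Lf (θ + 2 * Real.pi / 3) x ∧ q - Lf (θ + 2 * Real.pi / 3) x ≤ 1 / 2) ∧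
    (0 ≤ a - (p - Lf θ x) - (q - Lf (θ + 2 * Real.pi / 3) x) ∧
      a - (p - Lf θ x) - (q - Lf (θ + 2 * Real.pi / 3) x) ≤ 1 / 2)}

end Pool.Agent.H14.WS
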