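import Pool.Agent.H12.WormLTri
import Pool.Agent.H12.WormUpper

/-!
# Centrally symmetric translation covers
-/

set_option autoImplicit false

namespace Pool.Agent.H14.WS

open MeasureTheory Set Metric
open Pool.Agent.H12.Worm

/-- Three points of perimeter at most one lie in a common disc of radius `1 / 4`. -/
theorem three {x y z : Plane} (h : dist x y + dist y z + dist z x ≤ 1) :
    ∃ m : Plane, dist m x ≤ 1 / 4 ∧ dist m y ≤ 1 / 4 ∧ dist m z ≤ 1 / 4 := by
  have t1 : dist y z ≤ dist x y + dist z x := by
    have := dist_triangle y x z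
    rw [dist_comm y x, dist_comm x z] at this
    exact this
  have t2 : dist x y ≤ dist y z + dist z x := by
    have := dist_triangle x z y
    rw [dist_comm x z, dist_comm z y] at this
    linarith
  have t3 : dist z x ≤ dist x y + dist y z := by
    have := dist_triangle z y x
    rw [dist_comm z y, dist_comm y x] at this
    linarith
  obtain ⟨q, hq1, hq2⟩ : ∃ q : Plane, dist y q = (dist y z + dist z x - dist x y) / 2 ∧
      dist z q = (dist x y + dist y z - dist z x) / 2 := by
    by_cases h0 : dist y z = 0
    · have hyz := dist_eq_zero.mp h0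
      subst hyz
      refine ⟨y, ?_, ?_⟩
      · rw [dist_self, dist_comm x y]; ring
      · rw [dist_self, dist_comm x y]; ring
    · have hpos : 0 < dist y z := lt_of_le_of_ne dist_nonneg (Ne.symm h0)
      set c : ℝ := (dist y z + dist z x - dist x y) / 2 / dist y z with hc
      have hc0 : 0 ≤ c := by
        rw [hc]
        apply div_nonneg _ hpos.le
        linarith
      have hc1 : c ≤ 1 := by
        rw [hc, div_le_one hpos]
        linarith
      have hcm : c * dist y z = (dist y z + dist z x - dist x y) / 2 := by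
        rw [hc]
        field_simp
      refine ⟨AffineMap.lineMap y z c, ?_, ?_⟩
      · rw [dist_left_lineMap, Real.norm_of_nonneg hc0, hcm]
      · rw [dist_comm, dist_lineMap_right, Real.norm_of_nonneg (by linarith), sub_mul, one_mul, hcm]
        ring
  refine ⟨midpoint ℝ x q, ?_, ?_, ?_⟩
  · have e := dist_midpoint_midpoint_le x q x x
    rw [midpoint_self, dist_self] at e
    have e2 := dist_triangle q y x
    rw [dist_comm q y, dist_comm y x] at e2
    linarith
  · have e := dist_midpoint_midpoint_le x q y y
    rw [midpoint_self, dist_comm q y] at e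
    linarith
  · have e := dist_midpoint_midpoint_le x q z z
    rw [midpoint_self, dist_comm q z, dist_comm x z] at e
    linarith

/-- The disc of radius `1 / 4` is a translation cover. -/
theorem disc_cover (c : Plane) : IsTranslationCover (closedBall c (1 / 4)) := by
  intro γ hγ
  have key := Convex.helly_theorem_compact' (𝕜 := ℝ) (E := Plane)
    (F := fun t : Icc (0 : ℝ) 1 => closedBall (c - γ t) (1 / 4))
    (fun t => convex_closedBall _ _) (fun t => isCompact_closedBall _ _) (by
      intro I hI
      have hfin : Module.finrank ℝ Plane = 2 := by simp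
      rw [hfin] at hI
      have habc : ∃ a b d : Icc (0 : ℝ) 1, ∀ i ∈ I, i = a ∨ i = b ∨ i = d := by
        have : I.card = 0 ∨ I.card = 1 ∨ I.card = 2 ∨ I.card = 3 := by omega
        rcases this with h | h | h | h
        · rw [Finset.card_eq_zero] at h
          subst h
          exact ⟨⟨0, by simp⟩, ⟨0, by simp⟩, ⟨0, by simp⟩, by simp⟩
        · rw [Finset.card_eq_one] at h
          obtain ⟨a, rfl⟩ := h
          exact ⟨a, a, a, by simp⟩
        · rw [Finset.card_eq_two] at h
          obtain ⟨a, b, _, rfl⟩ := h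
          exact ⟨a, b, b, by simp⟩
        · rw [Finset.card_eq_three] at h
          obtain ⟨a, b, d, _, _, _, rfl⟩ := h
          exact ⟨a, b, d, by simp⟩
      obtain ⟨a, b, d, hall⟩ := habc
      have hsum := dist_sum_le' hγ a.2 b.2 d.2
      obtain ⟨m, h1, h2, h3⟩ := three (x := c - γ a) (y := c - γ b) (z := c - γ d) (by
        rw [dist_sub_left, dist_sub_left, dist_sub_left]
        exact hsum)
      refine ⟨m, ?_⟩
      simp only [mem_iInter, mem_closedBall]
      intro i hi
      rcases hall i hi with rfl | rfl | rfl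
      · exact h1
      · exact h2
      · exact h3)
  obtain ⟨v, hv⟩ := key
  refine ⟨v, fun t ht => ?_⟩
  rw [mem_iInter] at hv
  have := hv ⟨t, ht⟩
  rw [mem_closedBall] at this ⊢
  rw [dist_eq_norm] at this ⊢
  convert this using 2
  simp only
  abel

/-- A cover contains a chord of length one half of every direction. -/
theorem chord {K : Set Plane} (hK : IsTranslationCover K) {u : Plane} (hu : ‖u‖ = 1) :
    ∃ v : Plane, v ∈ K ∧ (1 / 2 : ℝ) • u + v ∈ K := by
  obtain ⟨v, h1, h2, _⟩ := cover_tri hK (s1 := 1 / 2) (s2 := 1 / 2) (s3 := 0) (w1 := u)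
    (w2 := -u) (w3 := u) (by norm_num) (by norm_num) le_rfl (by norm_num)
    hu (by rw [norm_neg, hu]) hu (by module)
  exact ⟨v, h1, h2⟩

theorem point_mem {K : Set Plane} (hconv : Convex ℝ K) (hK : IsTranslationCover K) {c : Plane}
    {s : ℝ} (hs : 0 < s) (h : ∀ x ∈ K, c - s⁻¹ • (x - c) ∈ K) {u : Plane} (hu : ‖u‖ = 1) :
    c + (1 / (2 * (1 + s)) : ℝ) • u ∈ K := by
  obtain ⟨v, h1, h2⟩ := chord hK hu
  have h3 := h v h1
  have hs1 : (1 + s) ≠ 0 := by positivity
  have := hconv h2 h3 (show 0 ≤ 1 / (1 + s) by positivity) (show 0 ≤ s / (1 + s) by positivity)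
    (by field_simp)
  convert this using 1
  ext i
  simp only [PiLp.add_apply, PiLp.sub_apply, PiLp.smul_apply, smul_eq_mul]
  field_simp
  ring

theorem ball_subset {K : Set Plane} (hconv : Convex ℝ K) (hK : IsTranslationCover K) {c : Plane}
    {s : ℝ} (hs : 0 < s) (h : ∀ x ∈ K, c - s⁻¹ • (x - c) ∈ K) :
    closedBall c (1 / (2 * (1 + s))) ⊆ K := by
  intro p hp
  rw [mem_closedBall, dist_eq_norm] at hp
  set R : ℝ := 1 / (2 * (1 + s)) with hR
  have hR0 : 0 < R := by rw [hR]; positivity
  have hc : c ∈ K := by
    have e1 := point_mem hconv hK hs h (norm_ev 0)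
    have e2 := point_mem hconv hK hs h (u := -ev 0) (by rw [norm_neg, norm_ev])
    have := hconv e1 e2 (show (0 : ℝ) ≤ 1 / 2 by norm_num) (show (0 : ℝ) ≤ 1 / 2 by norm_num)
      (by norm_num)
    convert this using 1
    module
  by_cases hpc : p = c
  · rw [hpc]; exact hc
  · have hn : 0 < ‖p - c‖ := norm_pos_iff.mpr (sub_ne_zero.mpr hpc)
    have e1 := point_mem hconv hK hs h (u := ‖p - c‖⁻¹ • (p - c)) (by
      rw [norm_smul, norm_inv, norm_norm, inv_mul_cancel₀ hn.ne'])
    rw [← hR] at e1
    have := hconv hc e1 (show 0 ≤ 1 - ‖p - c‖ / R by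
      rw [sub_nonneg, div_le_one hR0]; exact hp) (show 0 ≤ ‖p - c‖ / R by positivity)
      (by ring)
    convert this using 1
    rw [smul_add, smul_smul, smul_smul]
    have e3 : ‖p - c‖ / R * (R * ‖p - c‖⁻¹) = 1 := by
      field_simp
    rw [← mul_assoc] at e3
    rw [e3, one_smul, ← add_assoc, ← add_smul]
    simp

theorem volume_disc (c : Plane) {r : ℝ} (hr : 0 ≤ r) :
    volume (closedBall c r) = ENNReal.ofReal (r ^ 2 * Real.pi) := by
  rw [EuclideanSpace.volume_closedBall_fin_two]
  rw [ENNReal.ofReal_mul (by positivity), ENNReal.ofReal_pow hr]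

theorem eq_of_volume {K : Set Plane} (hconv : Convex ℝ K) {c : Plane} {r : ℝ}
    (hr : 0 < r) (hsub : closedBall c r ⊆ K) (hv : volume K ≤ volume (closedBall c r)) :
    K = closedBall c r := by
  refine Subset.antisymm ?_ hsub
  by_contra hne
  rw [not_subset] at hne
  obtain ⟨x, hxK, hx⟩ := hne
  have hint : (interior K).Nonempty :=
    ⟨c, interior_mono hsub (mem_interior_iff_mem_nhds.mpr (closedBall_mem_nhds c hr))⟩
  have hcl := hconv.closure_interior_eq_closure_of_nonempty_interior hint
  have hxc : x ∈ closure (interior K) := by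
    rw [hcl]; exact subset_closure hxK
  have hopen : IsOpen (closedBall c r)ᶜ := isClosed_closedBall.isOpen_compl
  obtain ⟨y, hy1, hy2⟩ := mem_closure_iff.mp hxc _ hopen hx
  have hO : IsOpen ((closedBall c r)ᶜ ∩ interior K) := hopen.inter isOpen_interior
  have hpos : 0 < volume ((closedBall c r)ᶜ ∩ interior K) := hO.measure_pos _ ⟨y, hy1, hy2⟩
  have hdisj : Disjoint (closedBall c r) ((closedBall c r)ᶜ ∩ interior K) :=
    disjoint_compl_right.mono_right inter_subset_left
  have hle : volume (closedBall c r) + volume ((closedBall c r)ᶜ ∩ interior K) ≤ volume K := by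
    rw [← measure_union hdisj hO.measurableSet]
    exact measure_mono (union_subset hsub (inter_subset_right.trans interior_subset))
  have hfin : volume (closedBall c r) ≠ ⊤ := (isCompact_closedBall c r).measure_lt_top.ne
  have := ENNReal.lt_add_right hfin hpos.ne'
  exact absurd (hle.trans hv) (not_le.mpr this)

end Pool.Agent.H14.WS
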