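import Pool.Agent.H14.WS.Def
import Pool.Agent.H12.WormLMeas

/-!
# The area of the model hexagon
-/

set_option autoImplicit false

namespace Pool.Agent.H14.WS

open MeasureTheory Set Pool.Agent.H12.Worm

/-- the hexagon in the coordinates `(s, r)` -/
private def Tx (a : ℝ) : Set (ℝ × ℝ) :=
  {x | (0 ≤ x.1 ∧ x.1 ≤ 1 / 2) ∧ (0 ≤ x.2 ∧ x.2 ≤ 1 / 2) ∧ (0 ≤ a - x.1 - x.2 ∧ a - x.1 - x.2 ≤ 1 / 2)}

private lemma Tx_meas (a : ℝ) : MeasurableSet (Tx a) := by
  apply IsClosed.measurableSet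
  have : Tx a = {x : ℝ × ℝ | 0 ≤ x.1} ∩ {x | x.1 ≤ 1 / 2} ∩ ({x | 0 ≤ x.2} ∩ {x | x.2 ≤ 1 / 2}) ∩
      ({x | 0 ≤ a - x.1 - x.2} ∩ {x | a - x.1 - x.2 ≤ 1 / 2}) := by
    ext x
    simp only [Tx, mem_ofPred_eq, mem_inter_iff]
    tauto
  rw [this]
  refine ((IsClosed.inter ?_ ?_).inter (IsClosed.inter ?_ ?_)).inter (IsClosed.inter ?_ ?_)
  · exact isClosed_le continuous_const (by fun_prop)
  · exact isClosed_le (by fun_prop) continuous_const
  · exact isClosed_le continuous_const (by fun_prop)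
  · exact isClosed_le (by fun_prop) continuous_const
  · exact isClosed_le continuous_const (by fun_prop)
  · exact isClosed_le (by fun_prop) continuous_const

private lemma int_slices (a : ℝ) (ha : 1 / 2 ≤ a) (ha1 : a ≤ 1) :
    ∫ s in (0 : ℝ)..(1 / 2), (min (1 / 2) (a - s) - max 0 (a - 1 / 2 - s)) =
      (-2 * a ^ 2 + 3 * a - 3 / 4) / 2 := by
  have hc : Continuous fun s : ℝ => min (1 / 2) (a - s) - max 0 (a - 1 / 2 - s) := by fun_prop
  rw [← intervalIntegral.integral_add_adjacent_intervals (b := a - 1 / 2)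
    (hc.intervalIntegrable _ _) (hc.intervalIntegrable _ _)]
  have e1 : ∫ s in (0 : ℝ)..(a - 1 / 2), (min (1 / 2) (a - s) - max 0 (a - 1 / 2 - s)) =
      ∫ s in (0 : ℝ)..(a - 1 / 2), (1 - a + s) := by
    refine intervalIntegral.integral_congr fun s hs => ?_
    rw [uIcc_of_le (by linarith)] at hs
    rw [min_eq_left (by linarith [hs.2]), max_eq_right (by linarith [hs.2])]
    ring
  have e2 : ∫ s in (a - 1 / 2)..(1 / 2), (min (1 / 2) (a - s) - max 0 (a - 1 / 2 - s)) =
      ∫ s in (a - 1 / 2)..(1 / 2), (a - s) := by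
    refine intervalIntegral.integral_congr fun s hs => ?_
    rw [uIcc_of_le (by linarith)] at hs
    rw [min_eq_right (by linarith [hs.1]), max_eq_left (by linarith [hs.1])]
    ring
  have e3 : ∫ s in (0 : ℝ)..(a - 1 / 2), (1 - a + s) = (1 - a) * (a - 1 / 2) + (a - 1 / 2) ^ 2 / 2 := by
    rw [intervalIntegral.integral_add (by simp) (by simp)]
    simp only [intervalIntegral.integral_const, integral_id, smul_eq_mul]
    ring
  have e4 : ∫ s in (a - 1 / 2)..(1 / 2), (a - s) = a * (1 - a) - (1 / 4 - (a - 1 / 2) ^ 2) / 2 := by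
    rw [intervalIntegral.integral_sub (by simp) (by simp)]
    simp only [intervalIntegral.integral_const, integral_id, smul_eq_mul]
    ring
  rw [e1, e2, e3, e4]
  ring

private lemma Tx_volume (a : ℝ) (ha : 1 / 2 ≤ a) (ha1 : a ≤ 1) :
    volume (Tx a) = ENNReal.ofReal ((-2 * a ^ 2 + 3 * a - 3 / 4) / 2) := by
  have hc : Continuous fun s : ℝ => min (1 / 2) (a - s) - max 0 (a - 1 / 2 - s) := by fun_prop
  rw [show (volume : Measure (ℝ × ℝ)) = volume.prod volume from rfl, Measure.prod_apply (Tx_meas a)]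
  have e1 : ∀ s : ℝ, volume (Prod.mk s ⁻¹' Tx a) =
      (Icc (0 : ℝ) (1 / 2)).indicator
        (fun s => ENNReal.ofReal (min (1 / 2) (a - s) - max 0 (a - 1 / 2 - s))) s := by
    intro s
    by_cases hs : s ∈ Icc (0 : ℝ) (1 / 2)
    · rw [indicator_of_mem hs, ← Real.volume_Icc]
      congr 1
      ext r
      simp only [mem_preimage, Tx, mem_ofPred_eq, mem_Icc, max_le_iff, le_min_iff]
      constructor
      · rintro ⟨-, ⟨h1, h2⟩, h3, h4⟩
        exact ⟨⟨h1, by linarith⟩, h2, by linarith⟩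
      · rintro ⟨⟨h1, h2⟩, h3, h4⟩
        exact ⟨hs, ⟨h1, h3⟩, by linarith, by linarith⟩
    · rw [indicator_of_notMem hs]
      have : Prod.mk s ⁻¹' Tx a = ∅ := by
        ext r
        simp only [mem_preimage, Tx, mem_ofPred_eq, mem_empty_iff_false, iff_false]
        exact fun h => hs h.1
      rw [this, measure_empty]
  simp_rw [e1]
  rw [lintegral_indicator measurableSet_Icc, ← ofReal_integral_eq_lintegral_ofReal]
  · congr 1
    rw [integral_Icc_eq_integral_Ioc, ← intervalIntegral.integral_of_le (by norm_num)]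
    exact int_slices a ha ha1
  · exact hc.integrableOn_Icc
  · refine (ae_restrict_mem measurableSet_Icc).mono fun s hs => ?_
    simp only [Pi.zero_apply, sub_nonneg]
    refine max_le (le_min (by norm_num) (by linarith [hs.2])) (le_min (by linarith [hs.1]) (by linarith))

theorem volume_Hx (θ p q a : ℝ) (ha : 1 / 2 ≤ a) (ha1 : a ≤ 1) :
    volume (Hx θ p q a) = ENNReal.ofReal ((-2 * a ^ 2 + 3 * a - 3 / 4) / Real.sqrt 3) := by
  set g : ℝ × ℝ →ₗ[ℝ] ℝ × ℝ := Matrix.toLin (.finTwoProd ℝ) (.finTwoProd ℝ)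
    !![Real.cos θ, Real.sin θ; Real.cos (θ + 2 * Real.pi / 3), Real.sin (θ + 2 * Real.pi / 3)] with hg
  have hs3 : Real.sin (2 * Real.pi / 3) = Real.sqrt 3 / 2 := by
    rw [show 2 * Real.pi / 3 = Real.pi - Real.pi / 3 by ring, Real.sin_pi_sub, Real.sin_pi_div_three]
  have h3 : 0 < Real.sqrt 3 := Real.sqrt_pos.2 (by norm_num)
  have hdet : LinearMap.det g = Real.sqrt 3 / 2 := by
    rw [hg, LinearMap.det_toLin, Matrix.det_fin_two]
    simp only [Matrix.of_apply, Matrix.cons_val', Matrix.cons_val_zero, Matrix.cons_val_one,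
      Matrix.cons_val_fin_one]
    rw [← hs3, show (2 * Real.pi / 3 : ℝ) = (θ + 2 * Real.pi / 3) - θ by ring,
      Real.sin_sub, show (θ + ((θ + 2 * Real.pi / 3) - θ)) = θ + 2 * Real.pi / 3 by ring]
    ring
  have happ : ∀ x : ℝ × ℝ, g x = (Real.cos θ * x.1 + Real.sin θ * x.2,
      Real.cos (θ + 2 * Real.pi / 3) * x.1 + Real.sin (θ + 2 * Real.pi / 3) * x.2) := by
    intro x
    rw [hg, Matrix.toLin_finTwoProd_apply]
  have hdet0 : LinearMap.det g ≠ 0 := by
    rw [hdet]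
    positivity
  have hmT : MeasurableSet ((fun v : ℝ × ℝ => (p, q) - v) ⁻¹' Tx a) :=
    (measurable_const.sub measurable_id) (Tx_meas a)
  have hvT : volume ((fun v : ℝ × ℝ => (p, q) - v) ⁻¹' Tx a) = volume (Tx a) :=
    (Measure.measurePreserving_sub_left volume (p, q)).measure_preimage (Tx_meas a).nullMeasurableSet
  have hmeas : MeasurableSet (g ⁻¹' ((fun v : ℝ × ℝ => (p, q) - v) ⁻¹' Tx a)) :=
    (LinearMap.continuous_of_finiteDimensional g).measurable hmT
  have e2 : Hx θ p q a = (fun v : Plane => (v 0, v 1)) ⁻¹'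
      (g ⁻¹' ((fun v : ℝ × ℝ => (p, q) - v) ⁻¹' Tx a)) := by
    ext x
    simp only [Hx, mem_preimage, happ, Tx, mem_ofPred_eq, Lf, Prod.fst_sub, Prod.snd_sub]
  rw [e2, mp_prod.measure_preimage hmeas.nullMeasurableSet, Measure.addHaar_preimage_linearMap _ hdet0,
    hvT, Tx_volume a ha ha1, hdet, ← ENNReal.ofReal_mul (abs_nonneg _)]
  congr 1
  rw [abs_of_pos (by positivity)]
  field_simp

end Pool.Agent.H14.WS
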