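import Pool.Agent.H14.WS.Hex
import Pool.Agent.H14.WS.Sym
import Pool.Agent.H14.WS.Vol

/-!
# Exact least areas in two families
-/

set_option autoImplicit false

namespace Pool.Agent.H14.WS

open MeasureTheory Set Metric
open Pool.Agent.H12.Worm

theorem value_mono {a : ℝ} (h1 : 1 / Real.sqrt 3 ≤ a) (h2 : a ≤ 3 / 4) :
    1 - 17 * Real.sqrt 3 / 36 ≤ (-2 * a ^ 2 + 3 * a - 3 / 4) / Real.sqrt 3 := by
  have hs0 : 0 < Real.sqrt 3 := by positivity
  have hsq : Real.sqrt 3 ^ 2 = 3 := Real.sq_sqrt (by norm_num)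
  have hs2 : Real.sqrt 3 < 2 := by
    rw [Real.sqrt_lt' (by norm_num)]; norm_num
  have e1 : 1 / Real.sqrt 3 = Real.sqrt 3 / 3 := by
    rw [div_eq_div_iff hs0.ne' (by norm_num)]
    nlinarith
  rw [e1] at h1
  rw [le_div_iff₀ hs0]
  have e2 : (1 - 17 * Real.sqrt 3 / 36) * Real.sqrt 3 = Real.sqrt 3 - 17 / 12 := by
    nlinarith
  rw [e2]
  have h3 : 0 ≤ (a - Real.sqrt 3 / 3) * (3 / 4 - a) := mul_nonneg (by linarith) (by linarith)
  have h4 : 0 ≤ (a - Real.sqrt 3 / 3) * (3 / 4 - Real.sqrt 3 / 3) :=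
    mul_nonneg (by linarith) (by linarith)
  nlinarith

theorem value_eq : (-2 * (1 / Real.sqrt 3) ^ 2 + 3 * (1 / Real.sqrt 3) - 3 / 4) / Real.sqrt 3 =
    1 - 17 * Real.sqrt 3 / 36 := by
  have hs0 : 0 < Real.sqrt 3 := by positivity
  have hsq : Real.sqrt 3 ^ 2 = 3 := Real.sq_sqrt (by norm_num)
  have e1 : 1 / Real.sqrt 3 = Real.sqrt 3 / 3 := by
    rw [div_eq_div_iff hs0.ne' (by norm_num)]
    nlinarith
  rw [e1, div_eq_iff hs0.ne']
  nlinarith

theorem sqrt3_bounds : 1 / 2 ≤ 1 / Real.sqrt 3 ∧ 1 / Real.sqrt 3 ≤ 3 / 4 := by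
  have hs0 : 0 < Real.sqrt 3 := by positivity
  constructor
  · rw [div_le_div_iff₀ (by norm_num) hs0]
    have : Real.sqrt 3 ≤ 2 := Real.sqrt_le_iff.mpr ⟨by norm_num, by norm_num⟩
    linarith
  · rw [div_le_iff₀ hs0]
    have : (4 / 3 : ℝ) ≤ Real.sqrt 3 := Real.le_sqrt_of_sq_le (by norm_num)
    linarith

/-- the criterion -/
theorem sixty_iff (θ : ℝ) (h : Fin 6 → ℝ) : IsTranslationCover (sixty θ h) ↔
    (1 / 2 ≤ h 0 + h 3 ∧ 1 / 2 ≤ h 1 + h 4 ∧ 1 / 2 ≤ h 2 + h 5) ∧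
      1 / Real.sqrt 3 ≤ h 0 + h 2 + h 4 ∧ 1 / Real.sqrt 3 ≤ h 1 + h 3 + h 5 := by
  constructor
  · intro hK
    obtain ⟨a, b, c, d, e⟩ := of_cover hK
    exact ⟨⟨a, b, c⟩, d, e⟩
  · rintro ⟨⟨a, b, c⟩, d, e⟩
    exact sixty_cover a b c d e

theorem sixty_lower {θ : ℝ} {h : Fin 6 → ℝ} (hK : IsTranslationCover (sixty θ h)) :
    ENNReal.ofReal (1 - 17 * Real.sqrt 3 / 36) ≤ volume (sixty θ h) := by
  obtain ⟨a, b, c, d, e⟩ := of_cover hK
  obtain ⟨θ', p, q, x, hx1, hx2, hsub⟩ := exists_Hx a b c d e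
  refine le_trans ?_ (measure_mono hsub)
  rw [volume_Hx θ' p q x (sqrt3_bounds.1.trans hx1) (by linarith)]
  exact ENNReal.ofReal_le_ofReal (value_mono hx1 hx2)

/-- the optimal support numbers -/
noncomputable def hst : Fin 6 → ℝ :=
  ![1 / Real.sqrt 3 / 3, 1 / 2 - 1 / Real.sqrt 3 / 3, 1 / Real.sqrt 3 / 3,
    1 / 2 - 1 / Real.sqrt 3 / 3, 1 / Real.sqrt 3 / 3, 1 / 2 - 1 / Real.sqrt 3 / 3]

theorem hst_cover : IsTranslationCover (sixty 0 hst) := by
  have h0 : hst 0 = 1 / Real.sqrt 3 / 3 := rfl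
  have h1 : hst 1 = 1 / 2 - 1 / Real.sqrt 3 / 3 := rfl
  have h2 : hst 2 = 1 / Real.sqrt 3 / 3 := rfl
  have h3 : hst 3 = 1 / 2 - 1 / Real.sqrt 3 / 3 := rfl
  have h4 : hst 4 = 1 / Real.sqrt 3 / 3 := rfl
  have h5 : hst 5 = 1 / 2 - 1 / Real.sqrt 3 / 3 := rfl
  have hb := sqrt3_bounds
  rw [sixty_iff, h0, h1, h2, h3, h4, h5]
  refine ⟨⟨by linarith, by linarith, by linarith⟩, by linarith, by linarith⟩

theorem hst_volume : volume (sixty 0 hst) = ENNReal.ofReal (1 - 17 * Real.sqrt 3 / 36) := by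
  refine le_antisymm ?_ (sixty_lower hst_cover)
  have h0 : hst 0 = 1 / Real.sqrt 3 / 3 := rfl
  have h1 : hst 1 = 1 / 2 - 1 / Real.sqrt 3 / 3 := rfl
  have h2 : hst 2 = 1 / Real.sqrt 3 / 3 := rfl
  have h3 : hst 3 = 1 / 2 - 1 / Real.sqrt 3 / 3 := rfl
  have h4 : hst 4 = 1 / Real.sqrt 3 / 3 := rfl
  have h5 : hst 5 = 1 / 2 - 1 / Real.sqrt 3 / 3 := rfl
  have hb := sqrt3_bounds
  have hsub : sixty 0 hst ⊆ Hx 0 (1 / Real.sqrt 3 / 3) (1 / Real.sqrt 3 / 3) (1 / Real.sqrt 3) := by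
    intro x hx
    rw [mem_sixty, h0, h1, h2, h3, h4, h5] at hx
    obtain ⟨x1, x2, x3, x4, x5, x6⟩ := hx
    refine ⟨⟨by linarith, by linarith⟩, ⟨by linarith, by linarith⟩, by linarith, by linarith⟩
  refine (measure_mono hsub).trans ?_
  rw [volume_Hx _ _ _ _ hb.1 (by linarith), value_eq]

/-- least area of the translation covers in the family `F` -/
noncomputable def leastArea (F : Set (Set Plane)) : ENNReal :=
  ⨅ R : {R : Set Plane // R ∈ F ∧ IsTranslationCover R}, volume R.1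

theorem leastArea_eq {F : Set (Set Plane)} {v : ENNReal}
    (hlow : ∀ R ∈ F, IsTranslationCover R → v ≤ volume R)
    (hex : ∃ R ∈ F, IsTranslationCover R ∧ volume R = v) : leastArea F = v := by
  apply le_antisymm
  · obtain ⟨R, hR, hc, hv⟩ := hex
    exact (iInf_le _ (⟨R, hR, hc⟩ : {R : Set Plane // R ∈ F ∧ IsTranslationCover R})).trans hv.le
  · exact le_iInf fun R => hlow R.1 R.2.1 R.2.2

theorem leastArea_sixty : leastArea {K | ∃ θ h, K = sixty θ h} =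
    ENNReal.ofReal (1 - 17 * Real.sqrt 3 / 36) := by
  apply leastArea_eq
  · rintro R ⟨θ, h, rfl⟩ hc
    exact sixty_lower hc
  · exact ⟨_, ⟨0, hst, rfl⟩, hst_cover, hst_volume⟩

theorem sym_iff {K : Set Plane} (hconv : Convex ℝ K) {c : Plane}
    (h : ∀ x ∈ K, c - (x - c) ∈ K) : IsTranslationCover K ↔ closedBall c (1 / 4) ⊆ K := by
  constructor
  · intro hK
    have := ball_subset hconv hK (c := c) (s := 1) one_pos (by
      intro x hx
      rw [inv_one, one_smul]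
      exact h x hx)
    norm_num at this
    exact this
  · intro hsub γ hγ
    obtain ⟨v, hv⟩ := disc_cover c γ hγ
    exact ⟨v, fun t ht => hsub (hv t ht)⟩

theorem quarter_disc (c : Plane) :
    volume (closedBall c (1 / 4)) = ENNReal.ofReal (Real.pi / 16) := by
  rw [volume_disc c (by norm_num)]
  congr 1
  ring

/-- the centrally symmetric convex regions -/
def symm : Set (Set Plane) :=
  {K | IsCompact K ∧ Convex ℝ K ∧ ∃ c : Plane, ∀ x ∈ K, c - (x - c) ∈ K}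

theorem leastArea_symm : leastArea symm = ENNReal.ofReal (Real.pi / 16) := by
  apply leastArea_eq
  · rintro R ⟨_, hconv, c, h⟩ hc
    rw [← quarter_disc c]
    exact measure_mono ((sym_iff hconv h).mp hc)
  · refine ⟨closedBall 0 (1 / 4), ⟨isCompact_closedBall _ _, convex_closedBall _ _, 0, ?_⟩,
      disc_cover 0, quarter_disc 0⟩
    intro x hx
    simpa using hx

theorem symm_unique {K : Set Plane} (hK : K ∈ symm) (hc : IsTranslationCover K)
    (hv : volume K ≤ ENNReal.ofReal (Real.pi / 16)) : ∃ c, K = closedBall c (1 / 4) := by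
  obtain ⟨_, hconv, c, h⟩ := hK
  refine ⟨c, eq_of_volume hconv (by norm_num) ((sym_iff hconv h).mp hc) ?_⟩
  rw [quarter_disc]
  exact hv

theorem asym_lower {K : Set Plane} (hconv : Convex ℝ K) (hK : IsTranslationCover K) {c : Plane}
    {s : ℝ} (hs : 0 < s) (h : ∀ x ∈ K, c - s⁻¹ • (x - c) ∈ K) :
    ENNReal.ofReal (Real.pi / (4 * (1 + s) ^ 2)) ≤ volume K := by
  refine le_trans (le_of_eq ?_) (measure_mono (ball_subset hconv hK hs h))
  rw [volume_disc c (by positivity)]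
  congr 1
  field_simp
  ring

theorem eq_of_volume' {K C : Set Plane} (hconv : Convex ℝ K) (hC : IsClosed C)
    (hint : (interior C).Nonempty) (hfin : volume C ≠ ⊤) (hsub : C ⊆ K)
    (hv : volume K ≤ volume C) : K = C := by
  refine Subset.antisymm ?_ hsub
  by_contra hne
  rw [not_subset] at hne
  obtain ⟨x, hxK, hx⟩ := hne
  have hintK : (interior K).Nonempty := hint.mono (interior_mono hsub)
  have hcl := hconv.closure_interior_eq_closure_of_nonempty_interior hintK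
  have hxc : x ∈ closure (interior K) := by
    rw [hcl]; exact subset_closure hxK
  have hopen : IsOpen Cᶜ := hC.isOpen_compl
  obtain ⟨y, hy1, hy2⟩ := mem_closure_iff.mp hxc _ hopen hx
  have hO : IsOpen (Cᶜ ∩ interior K) := hopen.inter isOpen_interior
  have hpos : 0 < volume (Cᶜ ∩ interior K) := hO.measure_pos _ ⟨y, hy1, hy2⟩
  have hdisj : Disjoint C (Cᶜ ∩ interior K) := disjoint_compl_right.mono_right inter_subset_left
  have hle : volume C + volume (Cᶜ ∩ interior K) ≤ volume K := by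
    rw [← measure_union hdisj hO.measurableSet]
    exact measure_mono (union_subset hsub (inter_subset_right.trans interior_subset))
  have := ENNReal.lt_add_right hfin hpos.ne'
  exact absurd (hle.trans hv) (not_le.mpr this)

theorem continuous_Lf (θ : ℝ) : Continuous (Lf θ) := by
  unfold Lf
  fun_prop

theorem sixty_convex (θ : ℝ) (h : Fin 6 → ℝ) : Convex ℝ (sixty θ h) := by
  intro x hx y hy a b ha hb hab k
  have h1 := hx k
  have h2 := hy k
  simp only [PiLp.add_apply, PiLp.smul_apply, smul_eq_mul]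
  have h3 := mul_le_mul_of_nonneg_left h1 ha
  have h4 := mul_le_mul_of_nonneg_left h2 hb
  have h5 : a * h k + b * h k = h k := by rw [← add_mul, hab, one_mul]
  linarith

theorem Hx_closed (θ p q a : ℝ) : IsClosed (Hx θ p q a) := by
  have c1 := continuous_Lf θ
  have c2 := continuous_Lf (θ + 2 * Real.pi / 3)
  unfold Hx
  refine IsClosed.and (IsClosed.and ?_ ?_) (IsClosed.and (IsClosed.and ?_ ?_)
    (IsClosed.and ?_ ?_))
  all_goals exact isClosed_le (by fun_prop) (by fun_prop)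

theorem Hx_interior {θ p q a : ℝ} (ha : 1 / 2 < a) (ha1 : a < 1) :
    (interior (Hx θ p q a)).Nonempty := by
  have c1 := continuous_Lf θ
  have c2 := continuous_Lf (θ + 2 * Real.pi / 3)
  obtain ⟨v, hv1, hv2⟩ := exists_coord θ (p - a / 3) (q - a / 3)
  have hO : IsOpen {x : Plane | (0 < p - Lf θ x ∧ p - Lf θ x < 1 / 2) ∧
    (0 < q - Lf (θ + 2 * Real.pi / 3) x ∧ q - Lf (θ + 2 * Real.pi / 3) x < 1 / 2) ∧
    (0 < a - (p - Lf θ x) - (q - Lf (θ + 2 * Real.pi / 3) x) ∧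
      a - (p - Lf θ x) - (q - Lf (θ + 2 * Real.pi / 3) x) < 1 / 2)} := by
    refine IsOpen.and (IsOpen.and ?_ ?_) (IsOpen.and (IsOpen.and ?_ ?_) (IsOpen.and ?_ ?_))
    all_goals exact isOpen_lt (by fun_prop) (by fun_prop)
  refine ⟨v, mem_interior.mpr ⟨_, ?_, hO, ?_⟩⟩
  · rintro x ⟨⟨x1, x2⟩, ⟨x3, x4⟩, x5, x6⟩
    exact ⟨⟨x1.le, x2.le⟩, ⟨x3.le, x4.le⟩, x5.le, x6.le⟩
  · rw [mem_ofPred_eq, hv1, hv2]
    refine ⟨⟨?_, ?_⟩, ⟨?_, ?_⟩, ?_, ?_⟩
    all_goals linarith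

theorem value_strict {a : ℝ} (h1 : 1 / Real.sqrt 3 < a) (h2 : a ≤ 3 / 4) :
    1 - 17 * Real.sqrt 3 / 36 < (-2 * a ^ 2 + 3 * a - 3 / 4) / Real.sqrt 3 := by
  have hs0 : 0 < Real.sqrt 3 := by positivity
  have hsq : Real.sqrt 3 ^ 2 = 3 := Real.sq_sqrt (by norm_num)
  have hs2 : Real.sqrt 3 < 2 := by
    rw [Real.sqrt_lt' (by norm_num)]; norm_num
  have e1 : 1 / Real.sqrt 3 = Real.sqrt 3 / 3 := by
    rw [div_eq_div_iff hs0.ne' (by norm_num)]
    nlinarith
  rw [e1] at h1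
  rw [lt_div_iff₀ hs0]
  have e2 : (1 - 17 * Real.sqrt 3 / 36) * Real.sqrt 3 = Real.sqrt 3 - 17 / 12 := by
    nlinarith
  rw [e2]
  have h3 : 0 ≤ (a - Real.sqrt 3 / 3) * (3 / 4 - a) := mul_nonneg (by linarith) (by linarith)
  have h4 : 0 < (a - Real.sqrt 3 / 3) * (3 / 4 - Real.sqrt 3 / 3) :=
    mul_pos (by linarith) (by linarith)
  nlinarith

/-- the optimal hexagon is unique up to congruence -/
theorem sixty_unique {θ : ℝ} {h : Fin 6 → ℝ} (hK : IsTranslationCover (sixty θ h))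
    (hv : volume (sixty θ h) ≤ ENNReal.ofReal (1 - 17 * Real.sqrt 3 / 36)) :
    ∃ θ' p q : ℝ, sixty θ h = Hx θ' p q (1 / Real.sqrt 3) := by
  have hb := sqrt3_bounds
  obtain ⟨a, b, c, d, e⟩ := of_cover hK
  obtain ⟨θ', p, q, x, hx1, hx2, hsub⟩ := exists_Hx a b c d e
  have hvol := volume_Hx θ' p q x (hb.1.trans hx1) (by linarith)
  have hs : (1 : ℝ) / 2 < 1 / Real.sqrt 3 := by
    rw [div_lt_div_iff₀ (by norm_num) (by positivity)]
    have : Real.sqrt 3 < 2 := by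
      rw [Real.sqrt_lt' (by norm_num)]; norm_num
    linarith
  have hx : x = 1 / Real.sqrt 3 := by
    by_contra hne
    have hlt : 1 / Real.sqrt 3 < x := lt_of_le_of_ne hx1 (Ne.symm hne)
    have h1 := value_strict hlt hx2
    have h2 : volume (Hx θ' p q x) ≤ ENNReal.ofReal (1 - 17 * Real.sqrt 3 / 36) :=
      (measure_mono hsub).trans hv
    rw [hvol] at h2
    have h3 : 0 < 1 - 17 * Real.sqrt 3 / 36 := by
      have : Real.sqrt 3 < 2 := by
        rw [Real.sqrt_lt' (by norm_num)]; norm_num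
      linarith
    exact absurd h2 (not_le.mpr ((ENNReal.ofReal_lt_ofReal_iff (h3.trans h1)).mpr h1))
  subst hx
  refine ⟨θ', p, q, eq_of_volume' (sixty_convex θ h) (Hx_closed _ _ _ _)
    (Hx_interior hs (by linarith)) (by rw [hvol]; exact ENNReal.ofReal_ne_top) hsub ?_⟩
  rw [hvol, value_eq]
  exact hv

end Pool.Agent.H14.WS
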