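import Pool.Agent.H14.WS.Def
import Pool.Agent.H12.WormUpper

/-!
# Polygons with sides parallel to the sides of an equilateral triangle
-/

set_option autoImplicit false

namespace Pool.Agent.H14.WS

open MeasureTheory Set Metric
open Pool.Agent.H12.Worm

/-- the intersection of six half-planes whose outer normals are at multiples of 60 degrees -/
def sixty (θ : ℝ) (h : Fin 6 → ℝ) : Set Plane :=
  {x | ∀ k : Fin 6, Real.cos (θ + k * Real.pi / 3) * x 0 + Real.sin (θ + k * Real.pi / 3) * x 1 ≤ h k}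

theorem Lf_pi (θ : ℝ) (x : Plane) : Lf (θ + Real.pi) x = -Lf θ x := Lf_neg θ x

theorem Lf_one (θ : ℝ) (x : Plane) :
    Lf (θ + Real.pi / 3) x = Lf θ x + Lf (θ + 2 * Real.pi / 3) x := by
  have c1 : Real.cos (θ + 2 * Real.pi / 3) = Real.cos (θ + Real.pi / 3) - Real.cos θ := by
    have e1 : Real.cos (θ + 2 * Real.pi / 3) = Real.cos ((θ + Real.pi / 3) + Real.pi / 3) := by
      congr 1; ring
    have e2 : Real.cos θ = Real.cos ((θ + Real.pi / 3) - Real.pi / 3) := by congr 1; ring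
    rw [e1, e2, Real.cos_add, Real.cos_sub, Real.cos_pi_div_three, Real.sin_pi_div_three]
    ring
  have c2 : Real.sin (θ + 2 * Real.pi / 3) = Real.sin (θ + Real.pi / 3) - Real.sin θ := by
    have e1 : Real.sin (θ + 2 * Real.pi / 3) = Real.sin ((θ + Real.pi / 3) + Real.pi / 3) := by
      congr 1; ring
    have e2 : Real.sin θ = Real.sin ((θ + Real.pi / 3) - Real.pi / 3) := by congr 1; ring
    rw [e1, e2, Real.sin_add, Real.sin_sub, Real.cos_pi_div_three, Real.sin_pi_div_three]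
    ring
  unfold Lf
  rw [c1, c2]
  ring

theorem Lf_four (θ : ℝ) (x : Plane) :
    Lf (θ + 4 * Real.pi / 3) x = -(Lf θ x + Lf (θ + 2 * Real.pi / 3) x) := by
  rw [← Lf_one, ← Lf_pi]
  congr 1
  ring

theorem Lf_five (θ : ℝ) (x : Plane) :
    Lf (θ + 5 * Real.pi / 3) x = -Lf (θ + 2 * Real.pi / 3) x := by
  rw [← Lf_pi]
  congr 1
  ring

theorem mem_sixty {θ : ℝ} {h : Fin 6 → ℝ} {x : Plane} :
    x ∈ sixty θ h ↔ Lf θ x ≤ h 0 ∧ -Lf θ x ≤ h 3 ∧ Lf (θ + 2 * Real.pi / 3) x ≤ h 2 ∧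
      -Lf (θ + 2 * Real.pi / 3) x ≤ h 5 ∧ Lf θ x + Lf (θ + 2 * Real.pi / 3) x ≤ h 1 ∧
      -(Lf θ x + Lf (θ + 2 * Real.pi / 3) x) ≤ h 4 := by
  have hk : ∀ k : Fin 6, (Real.cos (θ + k * Real.pi / 3) * x 0 +
      Real.sin (θ + k * Real.pi / 3) * x 1 ≤ h k) ↔ Lf (θ + k * Real.pi / 3) x ≤ h k :=
    fun k => Iff.rfl
  unfold sixty
  simp only [mem_ofPred_eq, hk]
  have e0 : Lf (θ + ((0 : Fin 6) : ℕ) * Real.pi / 3) x = Lf θ x := by
    congr 1; simp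
  have e1 : Lf (θ + ((1 : Fin 6) : ℕ) * Real.pi / 3) x =
      Lf θ x + Lf (θ + 2 * Real.pi / 3) x := by
    rw [← Lf_one]; congr 1; simp
  have e2 : Lf (θ + ((2 : Fin 6) : ℕ) * Real.pi / 3) x = Lf (θ + 2 * Real.pi / 3) x := by
    congr 1
  have e3 : Lf (θ + ((3 : Fin 6) : ℕ) * Real.pi / 3) x = -Lf θ x := by
    rw [← Lf_pi]; congr 1
    have : (((3 : Fin 6) : ℕ) : ℝ) = 3 := by norm_num
    rw [this]; ring
  have e4 : Lf (θ + ((4 : Fin 6) : ℕ) * Real.pi / 3) x =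
      -(Lf θ x + Lf (θ + 2 * Real.pi / 3) x) := by
    rw [← Lf_four]; congr 1
  have e5 : Lf (θ + ((5 : Fin 6) : ℕ) * Real.pi / 3) x = -Lf (θ + 2 * Real.pi / 3) x := by
    rw [← Lf_five]; congr 1
  constructor
  · intro H
    have h0 := H 0
    have h1 := H 1
    have h2 := H 2
    have h3 := H 3
    have h4 := H 4
    have h5 := H 5
    rw [e0] at h0
    rw [e1] at h1
    rw [e2] at h2
    rw [e3] at h3
    rw [e4] at h4
    rw [e5] at h5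
    exact ⟨h0, h3, h2, h5, h1, h4⟩
  · rintro ⟨h0, h3, h2, h5, h1, h4⟩ k
    fin_cases k
    · exact e0.trans_le h0
    · exact e1.trans_le h1
    · exact e2.trans_le h2
    · exact e3.trans_le h3
    · exact e4.trans_le h4
    · exact e5.trans_le h5

/-- solvability of the six inequalities -/
theorem solve {e0 e1 e2 e3 e4 e5 : ℝ} (h03 : 0 ≤ e0 + e3) (h14 : 0 ≤ e1 + e4) (h25 : 0 ≤ e2 + e5)
    (h024 : 0 ≤ e0 + e2 + e4) (h135 : 0 ≤ e1 + e3 + e5) :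
    ∃ p q : ℝ, p ≤ e0 ∧ -p ≤ e3 ∧ q ≤ e2 ∧ -q ≤ e5 ∧ p + q ≤ e1 ∧ -(p + q) ≤ e4 := by
  refine ⟨max (-e3) (-e4 - e2), max (-e5) (-e4 - max (-e3) (-e4 - e2)), ?_, ?_, ?_, ?_, ?_, ?_⟩
  · exact max_le (by linarith) (by linarith)
  · have := le_max_left (-e3) (-e4 - e2)
    linarith
  · refine max_le (by linarith) ?_
    have := le_max_right (-e3) (-e4 - e2)
    linarith
  · have := le_max_left (-e5) (-e4 - max (-e3) (-e4 - e2))
    linarith
  · have h1 : max (-e5) (-e4 - max (-e3) (-e4 - e2)) ≤ e1 - max (-e3) (-e4 - e2) := by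
      refine max_le ?_ (by linarith)
      have : max (-e3) (-e4 - e2) ≤ e1 + e5 := max_le (by linarith) (by linarith)
      linarith
    linarith
  · have := le_max_right (-e5) (-e4 - max (-e3) (-e4 - e2))
    linarith

/-- a point with given coordinates -/
theorem exists_coord (θ p q : ℝ) :
    ∃ v : Plane, Lf θ v = p ∧ Lf (θ + 2 * Real.pi / 3) v = q := by
  have hs : Real.sqrt 3 ^ 2 = 3 := Real.sq_sqrt (by norm_num)
  have hs0 : Real.sqrt 3 ≠ 0 := by positivity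
  have c1 : Real.cos (2 * Real.pi / 3) = -1 / 2 := by
    rw [show 2 * Real.pi / 3 = Real.pi - Real.pi / 3 by ring, Real.cos_pi_sub,
      Real.cos_pi_div_three]
    norm_num
  have c2 : Real.sin (2 * Real.pi / 3) = Real.sqrt 3 / 2 := by
    rw [show 2 * Real.pi / 3 = Real.pi - Real.pi / 3 by ring, Real.sin_pi_sub,
      Real.sin_pi_div_three]
  -- v = p * ev θ + w * ev (θ + π/2), w = (q + p/2) * 2 / √3
  refine ⟨p • ev θ + ((q + p / 2) * 2 / Real.sqrt 3) • ev (θ + Real.pi / 2), ?_, ?_⟩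
  · rw [Lf_add, Lf_smul, Lf_smul, Lf_ev, Lf_ev, sub_self, Real.cos_zero,
      show θ + Real.pi / 2 - θ = Real.pi / 2 by ring, Real.cos_pi_div_two]
    ring
  · rw [Lf_add, Lf_smul, Lf_smul, Lf_ev, Lf_ev,
      show θ - (θ + 2 * Real.pi / 3) = -(2 * Real.pi / 3) by ring, Real.cos_neg, c1,
      show θ + Real.pi / 2 - (θ + 2 * Real.pi / 3) = Real.pi / 2 - (2 * Real.pi / 3) by ring,
      Real.cos_pi_div_two_sub, c2]
    field_simp
    ring

/-- support numbers of a worm -/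
theorem exists_sup {γ : ℝ → Plane} (hγ : IsClosedWorm γ) (θ : ℝ) :
    ∃ t ∈ Icc (0 : ℝ) 1, ∀ u ∈ Icc (0 : ℝ) 1, Lf θ (γ u) ≤ Lf θ (γ t) := by
  have hc : ContinuousOn (fun t => Lf θ (γ t)) (Icc 0 1) := by
    have h0 : Continuous (Lf θ) := by
      unfold Lf
      fun_prop
    exact h0.comp_continuousOn hγ.1
  obtain ⟨t, ht, hmax⟩ := isCompact_Icc.exists_isMaxOn ⟨0, by simp⟩ hc
  exact ⟨t, ht, fun u hu => hmax hu⟩

theorem dist_le_half {γ : ℝ → Plane} (hγ : IsClosedWorm γ) {s t : ℝ} (hs : s ∈ Icc (0 : ℝ) 1)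
    (ht : t ∈ Icc (0 : ℝ) 1) : dist (γ s) (γ t) ≤ 1 / 2 := by
  have := dist_sum_le' hγ hs ht hs
  rw [dist_self, dist_comm (γ t) (γ s)] at this
  linarith

theorem width_worm {γ : ℝ → Plane} (hγ : IsClosedWorm γ) (θ : ℝ) {s t : ℝ}
    (hs : s ∈ Icc (0 : ℝ) 1) (ht : t ∈ Icc (0 : ℝ) 1) :
    Lf θ (γ s) + Lf (θ + Real.pi) (γ t) ≤ 1 / 2 := by
  rw [Lf_pi, ← sub_eq_add_neg, ← Lf_sub]
  exact (Lf_le_norm _ _).trans (by rw [← dist_eq_norm]; exact dist_le_half hγ hs ht)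

theorem triple_worm {γ : ℝ → Plane} (hγ : IsClosedWorm γ) (θ : ℝ) {s t u : ℝ}
    (hs : s ∈ Icc (0 : ℝ) 1) (ht : t ∈ Icc (0 : ℝ) 1) (hu : u ∈ Icc (0 : ℝ) 1) :
    Lf θ (γ s) + Lf (θ + 2 * Real.pi / 3) (γ t) + Lf (θ + 4 * Real.pi / 3) (γ u) ≤
      1 / Real.sqrt 3 := by
  have h1 := triple_le (a1 := Real.cos θ) (b1 := Real.sin θ) (a2 := Real.cos (θ + 2 * Real.pi / 3))
    (b2 := Real.sin (θ + 2 * Real.pi / 3)) (a3 := Real.cos (θ + 4 * Real.pi / 3))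
    (b3 := Real.sin (θ + 4 * Real.pi / 3)) (Real.cos_sq_add_sin_sq _) (Real.cos_sq_add_sin_sq _)
    (Real.cos_sq_add_sin_sq _) (γ s) (γ t) (γ u)
  have h2 := dist_sum_le' hγ hs ht hu
  have hs0 : 0 < Real.sqrt 3 := by positivity
  have hsq : Real.sqrt 3 ^ 2 = 3 := Real.sq_sqrt (by norm_num)
  have s2 : Real.sin (2 * Real.pi / 3) = Real.sqrt 3 / 2 := by
    rw [show 2 * Real.pi / 3 = Real.pi - Real.pi / 3 by ring, Real.sin_pi_sub,
      Real.sin_pi_div_three]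
  have s4 : Real.sin (4 * Real.pi / 3) = -(Real.sqrt 3 / 2) := by
    rw [show 4 * Real.pi / 3 = Real.pi / 3 + Real.pi by ring, Real.sin_add_pi,
      Real.sin_pi_div_three]
  have d1 : Real.cos (θ + 2 * Real.pi / 3) * Real.sin (θ + 4 * Real.pi / 3) -
      Real.sin (θ + 2 * Real.pi / 3) * Real.cos (θ + 4 * Real.pi / 3) = Real.sqrt 3 / 2 := by
    have : Real.sin ((θ + 4 * Real.pi / 3) - (θ + 2 * Real.pi / 3)) = Real.sqrt 3 / 2 := by
      rw [show (θ + 4 * Real.pi / 3) - (θ + 2 * Real.pi / 3) = 2 * Real.pi / 3 by ring, s2]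
    rw [Real.sin_sub] at this
    linarith
  have d2 : Real.cos (θ + 4 * Real.pi / 3) * Real.sin θ -
      Real.sin (θ + 4 * Real.pi / 3) * Real.cos θ = Real.sqrt 3 / 2 := by
    have : Real.sin (θ - (θ + 4 * Real.pi / 3)) = Real.sqrt 3 / 2 := by
      rw [show θ - (θ + 4 * Real.pi / 3) = -(4 * Real.pi / 3) by ring, Real.sin_neg, s4]
      ring
    rw [Real.sin_sub] at this
    linarith
  have d3 : Real.cos θ * Real.sin (θ + 2 * Real.pi / 3) -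
      Real.sin θ * Real.cos (θ + 2 * Real.pi / 3) = Real.sqrt 3 / 2 := by
    have : Real.sin ((θ + 2 * Real.pi / 3) - θ) = Real.sqrt 3 / 2 := by
      rw [show (θ + 2 * Real.pi / 3) - θ = 2 * Real.pi / 3 by ring, s2]
    rw [Real.sin_sub] at this
    linarith
  rw [d1, d2, d3] at h1
  unfold Lf
  rw [le_div_iff₀ hs0]
  nlinarith

/-- the cover criterion, first half -/
theorem sixty_cover {θ : ℝ} {h : Fin 6 → ℝ} (h03 : 1 / 2 ≤ h 0 + h 3) (h14 : 1 / 2 ≤ h 1 + h 4)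
    (h25 : 1 / 2 ≤ h 2 + h 5) (h024 : 1 / Real.sqrt 3 ≤ h 0 + h 2 + h 4)
    (h135 : 1 / Real.sqrt 3 ≤ h 1 + h 3 + h 5) : IsTranslationCover (sixty θ h) := by
  intro γ hγ
  obtain ⟨t0, ht0, m0⟩ := exists_sup hγ θ
  obtain ⟨t1, ht1, m1⟩ := exists_sup hγ (θ + Real.pi / 3)
  obtain ⟨t2, ht2, m2⟩ := exists_sup hγ (θ + 2 * Real.pi / 3)
  obtain ⟨t3, ht3, m3⟩ := exists_sup hγ (θ + Real.pi)
  obtain ⟨t4, ht4, m4⟩ := exists_sup hγ (θ + 4 * Real.pi / 3)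
  obtain ⟨t5, ht5, m5⟩ := exists_sup hγ (θ + 5 * Real.pi / 3)
  have w0 := width_worm hγ θ ht0 ht3
  have w1 := width_worm hγ (θ + Real.pi / 3) ht1 ht4
  have w2 := width_worm hγ (θ + 2 * Real.pi / 3) ht2 ht5
  rw [show θ + Real.pi / 3 + Real.pi = θ + 4 * Real.pi / 3 by ring] at w1
  rw [show θ + 2 * Real.pi / 3 + Real.pi = θ + 5 * Real.pi / 3 by ring] at w2
  have a0 := triple_worm hγ θ ht0 ht2 ht4
  have a1 := triple_worm hγ (θ + Real.pi / 3) ht1 ht3 ht5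
  rw [show θ + Real.pi / 3 + 2 * Real.pi / 3 = θ + Real.pi by ring,
    show θ + Real.pi / 3 + 4 * Real.pi / 3 = θ + 5 * Real.pi / 3 by ring] at a1
  obtain ⟨p, q, g0, g3, g2, g5, g1, g4⟩ := solve (e0 := h 0 - Lf θ (γ t0))
    (e1 := h 1 - Lf (θ + Real.pi / 3) (γ t1)) (e2 := h 2 - Lf (θ + 2 * Real.pi / 3) (γ t2))
    (e3 := h 3 - Lf (θ + Real.pi) (γ t3)) (e4 := h 4 - Lf (θ + 4 * Real.pi / 3) (γ t4))
    (e5 := h 5 - Lf (θ + 5 * Real.pi / 3) (γ t5)) (by linarith) (by linarith) (by linarith)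
    (by linarith) (by linarith)
  obtain ⟨v, hv1, hv2⟩ := exists_coord θ p q
  refine ⟨v, fun t ht => ?_⟩
  rw [mem_sixty, Lf_add, Lf_add, hv1, hv2]
  have n0 := m0 t ht
  have n1 := m1 t ht
  have n2 := m2 t ht
  have n3 := m3 t ht
  have n4 := m4 t ht
  have n5 := m5 t ht
  rw [Lf_one θ (γ t)] at n1
  rw [Lf_pi θ (γ t)] at n3
  rw [Lf_four θ (γ t)] at n4
  rw [Lf_five θ (γ t)] at n5
  refine ⟨by linarith, by linarith, by linarith, by linarith, by linarith, by linarith⟩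

/-- the cover criterion, second half -/
theorem of_cover {θ : ℝ} {h : Fin 6 → ℝ} (hK : IsTranslationCover (sixty θ h)) :
    1 / 2 ≤ h 0 + h 3 ∧ 1 / 2 ≤ h 1 + h 4 ∧ 1 / 2 ≤ h 2 + h 5 ∧
      1 / Real.sqrt 3 ≤ h 0 + h 2 + h 4 ∧ 1 / Real.sqrt 3 ≤ h 1 + h 3 + h 5 := by
  have hs0 : 0 < Real.sqrt 3 := by positivity
  have hsq : Real.sqrt 3 ^ 2 = 3 := Real.sq_sqrt (by norm_num)
  have hpi := Real.pi_pos
  have s2 : Real.sin (2 * Real.pi / 3) = Real.sqrt 3 / 2 := by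
    rw [show 2 * Real.pi / 3 = Real.pi - Real.pi / 3 by ring, Real.sin_pi_sub,
      Real.sin_pi_div_three]
  have s4 : Real.sin (4 * Real.pi / 3) = -(Real.sqrt 3 / 2) := by
    rw [show 4 * Real.pi / 3 = Real.pi / 3 + Real.pi by ring, Real.sin_add_pi,
      Real.sin_pi_div_three]
  have b0 : ∀ x ∈ sixty θ h, Lf θ x ≤ h 0 := fun x hx => (mem_sixty.mp hx).1
  have b3 : ∀ x ∈ sixty θ h, Lf (θ + Real.pi) x ≤ h 3 := fun x hx => by
    rw [Lf_pi]; exact (mem_sixty.mp hx).2.1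
  have b2 : ∀ x ∈ sixty θ h, Lf (θ + 2 * Real.pi / 3) x ≤ h 2 :=
    fun x hx => (mem_sixty.mp hx).2.2.1
  have b5 : ∀ x ∈ sixty θ h, Lf (θ + 5 * Real.pi / 3) x ≤ h 5 := fun x hx => by
    rw [Lf_five]; exact (mem_sixty.mp hx).2.2.2.1
  have b1 : ∀ x ∈ sixty θ h, Lf (θ + Real.pi / 3) x ≤ h 1 := fun x hx => by
    rw [Lf_one]; exact (mem_sixty.mp hx).2.2.2.2.1
  have b4 : ∀ x ∈ sixty θ h, Lf (θ + 4 * Real.pi / 3) x ≤ h 4 := fun x hx => by
    rw [Lf_four]; exact (mem_sixty.mp hx).2.2.2.2.2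
  have key : ∀ φ a b c : ℝ, (∀ x ∈ sixty θ h, Lf φ x ≤ a) →
      (∀ x ∈ sixty θ h, Lf (φ + 2 * Real.pi / 3) x ≤ b) →
      (∀ x ∈ sixty θ h, Lf (φ + 4 * Real.pi / 3) x ≤ c) → 1 / Real.sqrt 3 ≤ a + b + c := by
    intro φ a b c ha hb hc
    have := cover_triple hK (x := φ) (y := φ + 2 * Real.pi / 3) (z := φ + 4 * Real.pi / 3)
      (by linarith) (by linarith) (by linarith) (by linarith) (by linarith) (by linarith) ha hb hc
    rw [show φ + 4 * Real.pi / 3 - (φ + 2 * Real.pi / 3) = 2 * Real.pi / 3 by ring,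
      show φ - (φ + 4 * Real.pi / 3) = -(4 * Real.pi / 3) by ring,
      show φ + 2 * Real.pi / 3 - φ = 2 * Real.pi / 3 by ring, Real.sin_neg, s2, s4] at this
    rw [div_le_iff₀ hs0]
    nlinarith
  refine ⟨cover_width hK b0 b3, cover_width hK b1 ?_, cover_width hK b2 ?_,
    key θ _ _ _ b0 b2 b4, ?_⟩
  · rw [show θ + Real.pi / 3 + Real.pi = θ + 4 * Real.pi / 3 by ring]
    exact b4
  · rw [show θ + 2 * Real.pi / 3 + Real.pi = θ + 5 * Real.pi / 3 by ring]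
    exact b5
  · refine key (θ + Real.pi / 3) _ _ _ b1 ?_ ?_
    · rw [show θ + Real.pi / 3 + 2 * Real.pi / 3 = θ + Real.pi by ring]
      exact b3
    · rw [show θ + Real.pi / 3 + 4 * Real.pi / 3 = θ + 5 * Real.pi / 3 by ring]
      exact b5

/-- the model hexagon inside -/
theorem exists_Hx {θ : ℝ} {h : Fin 6 → ℝ} (h03 : 1 / 2 ≤ h 0 + h 3) (h14 : 1 / 2 ≤ h 1 + h 4)
    (h25 : 1 / 2 ≤ h 2 + h 5) (h024 : 1 / Real.sqrt 3 ≤ h 0 + h 2 + h 4)
    (h135 : 1 / Real.sqrt 3 ≤ h 1 + h 3 + h 5) :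
    ∃ θ' p q a : ℝ, 1 / Real.sqrt 3 ≤ a ∧ a ≤ 3 / 4 ∧ Hx θ' p q a ⊆ sixty θ h := by
  have hs34 : 1 / Real.sqrt 3 ≤ 3 / 4 := by
    rw [div_le_iff₀ (by positivity)]
    have : (4 / 3 : ℝ) ≤ Real.sqrt 3 := Real.le_sqrt_of_sq_le (by norm_num)
    linarith
  by_cases ha : h 0 + h 2 + h 4 ≤ 3 / 4
  · refine ⟨θ, h 0, h 2, _, h024, ha, ?_⟩
    intro x hx
    obtain ⟨⟨x1, x2⟩, ⟨x3, x4⟩, x5, x6⟩ := hx
    rw [mem_sixty]
    refine ⟨by linarith, by linarith, by linarith, by linarith, by linarith, by linarith⟩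
  by_cases hb : h 1 + h 3 + h 5 ≤ 3 / 4
  · refine ⟨θ + Real.pi, h 3, h 5, _, h135, hb, ?_⟩
    intro x hx
    obtain ⟨⟨x1, x2⟩, ⟨x3, x4⟩, x5, x6⟩ := hx
    rw [show θ + Real.pi + 2 * Real.pi / 3 = θ + 2 * Real.pi / 3 + Real.pi by ring, Lf_pi] at *
    rw [Lf_pi] at *
    rw [mem_sixty]
    refine ⟨by linarith, by linarith, by linarith, by linarith, by linarith, by linarith⟩
  · obtain ⟨p, q, g0, g3, g2, g5, g1, g4⟩ := solve (e0 := h 0 - 1 / 4) (e1 := h 1 - 1 / 4)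
      (e2 := h 2 - 1 / 4) (e3 := h 3 - 1 / 4) (e4 := h 4 - 1 / 4) (e5 := h 5 - 1 / 4)
      (by linarith) (by linarith) (by linarith) (by linarith) (by linarith)
    refine ⟨θ, p + 1 / 4, q + 1 / 4, 3 / 4, hs34, le_rfl, ?_⟩
    intro x hx
    obtain ⟨⟨x1, x2⟩, ⟨x3, x4⟩, x5, x6⟩ := hx
    rw [mem_sixty]
    refine ⟨by linarith, by linarith, by linarith, by linarith, by linarith, by linarith⟩

end Pool.Agent.H14.WS
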